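import Mathlib

open Complex Filter Topology MeasureTheory
open scoped ComplexConjugate ENNReal

namespace Pool.Agent.Results.MP_060e4f_an.Disproof

/-- `F^*(z)`, the complex conjugate of `F` at the conjugate point. -/
def conjFun (F : ℂ → ℂ) (z : ℂ) : ℂ := conj (F (conj z))

/-- `g` is (holomorphic and) of bounded type in the upper half-plane: it is a quotient `p / q` of
two bounded holomorphic functions there, `q` not identically zero. -/
def IsBoundedType (g : ℂ → ℂ) : Prop :=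
  DifferentiableOn ℂ g {z : ℂ | 0 < z.im} ∧
    ∃ p q : ℂ → ℂ,
      DifferentiableOn ℂ p {z : ℂ | 0 < z.im} ∧ DifferentiableOn ℂ q {z : ℂ | 0 < z.im} ∧
      (∃ C : ℝ, ∀ z : ℂ, 0 < z.im → ‖p z‖ ≤ C) ∧ (∃ C : ℝ, ∀ z : ℂ, 0 < z.im → ‖q z‖ ≤ C) ∧
      (∃ z : ℂ, 0 < z.im ∧ q z ≠ 0) ∧ ∀ z : ℂ, 0 < z.im → g z * q z = p z

/-- The mean type `limsup_{y → +∞} y⁻¹ log |g (i y)|`, an extended real number. -/
noncomputable def meanType (g : ℂ → ℂ) : EReal :=
  limsup (fun y : ℝ => ENNReal.log (‖g ((y : ℂ) * I)‖ₑ) / (y : EReal)) atTop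

/-- The norm of `F` in `H(E)`: `(∫ |F(t)/E(t)|² dt)^(1/2)`, in `[0,∞]`. -/
noncomputable def deBrangesNorm (E F : ℂ → ℂ) : ℝ≥0∞ :=
  (∫⁻ t : ℝ, ‖F (t : ℂ) / E (t : ℂ)‖ₑ ^ 2) ^ (1 / 2 : ℝ)

/-- The de Branges space `H(E)`. -/
def deBrangesSpace (E : ℂ → ℂ) : Set (ℂ → ℂ) :=
  {F | Differentiable ℂ F ∧ deBrangesNorm E F < ∞ ∧
    IsBoundedType (fun z => F z / E z) ∧ meanType (fun z => F z / E z) ≤ 0 ∧
    IsBoundedType (fun z => conjFun F z / E z) ∧ meanType (fun z => conjFun F z / E z) ≤ 0}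

/-- `E` is entire and `|E(z̄)| < |E(z)|` for `z` in the upper half-plane. -/
def IsHermiteBiehler (E : ℂ → ℂ) : Prop :=
  Differentiable ℂ E ∧ ∀ z : ℂ, 0 < z.im → ‖E (conj z)‖ < ‖E z‖

/-- `E` is of finite exponential type. -/
def IsFiniteExponentialType (E : ℂ → ℂ) : Prop :=
  ∃ A B : ℝ, ∀ z : ℂ, ‖E z‖ ≤ A * Real.exp (B * ‖z‖)

/-- The translate `f_z(ζ) = f(ζ + z)`. -/
def translate (f : ℂ → ℂ) (z : ℂ) : ℂ → ℂ := fun ζ => f (ζ + z)

/-- The translation group acts continuously on `H(E)`. -/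
def TranslationsActContinuously (E : ℂ → ℂ) : Prop :=
  (∀ f ∈ deBrangesSpace E, ∀ z : ℂ, translate f z ∈ deBrangesSpace E) ∧
    ∀ f ∈ deBrangesSpace E, ∀ z₀ : ℂ,
      Tendsto (fun z : ℂ => deBrangesNorm E (fun ζ => translate f z ζ - translate f z₀ ζ))
        (𝓝 z₀) (𝓝 0)

/-- The zeros. -/
noncomputable def a (n j : ℕ) : ℂ := ⟨4 ^ n, -(2 ^ j)⟩

lemma a_re (n j : ℕ) : (a n j).re = 4 ^ n := rfl
lemma a_im (n j : ℕ) : (a n j).im = -(2 ^ j) := rfl

lemma normSq_a_pos (n j : ℕ) : 0 < normSq (a n j) := by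
  rw [normSq_apply, a_re, a_im]
  have h1 : (0 : ℝ) < 4 ^ n := by positivity
  have h2 : (0 : ℝ) < 2 ^ j := by positivity
  nlinarith

lemma a_ne (n j : ℕ) : a n j ≠ 0 := by
  rw [← normSq_pos]; exact normSq_a_pos n j

lemma norm_a_ge (n j : ℕ) : (4 : ℝ) ^ n ≤ ‖a n j‖ := by
  have := abs_re_le_norm (a n j)
  rw [a_re, abs_of_pos (by positivity)] at this
  exact this

/-- The `n`-th block. -/
noncomputable def G (n : ℕ) (z : ℂ) : ℂ :=
  ∏ j ∈ Finset.range (n + 1), (1 - z / a n j) ^ (2 ^ j)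

lemma G_differentiable (n : ℕ) : Differentiable ℂ (G n) := by
  unfold G
  apply Differentiable.fun_finsetProd
  intro j _
  fun_prop

lemma sum_two_pow (n : ℕ) : ∑ j ∈ Finset.range (n + 1), (2 : ℝ) ^ j ≤ 2 * 2 ^ n := by
  have := geom_sum_eq (x := (2 : ℝ)) (by norm_num) (n + 1)
  rw [this]; rw [pow_succ]; norm_num; nlinarith [pow_pos (two_pos (α := ℝ)) n]

lemma G_sub_one (n : ℕ) (z : ℂ) :
    ‖G n z - 1‖ ≤ Real.exp (‖z‖ * (2 * (1 / 2) ^ n)) - 1 := by
  have h1 : G n z = ∏ p ∈ (Finset.range (n + 1)).sigma (fun j => Finset.range (2 ^ j)),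
      (1 + (-(z / a n p.1))) := by
    rw [Finset.prod_sigma]
    unfold G
    refine Finset.prod_congr rfl fun j _ => ?_
    simp [sub_eq_add_neg]
  rw [h1]
  refine (Finset.norm_prod_one_add_sub_one_le _ _).trans ?_
  have h2 : ∑ p ∈ (Finset.range (n + 1)).sigma (fun j => Finset.range (2 ^ j)),
      ‖-(z / a n p.1)‖ ≤ ‖z‖ * (2 * (1 / 2) ^ n) := by
    rw [Finset.sum_sigma]
    calc ∑ j ∈ Finset.range (n + 1), ∑ _k ∈ Finset.range (2 ^ j), ‖-(z / a n j)‖
        ≤ ∑ j ∈ Finset.range (n + 1), (2 : ℝ) ^ j * (‖z‖ / 4 ^ n) := by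
          refine Finset.sum_le_sum fun j _ => ?_
          rw [Finset.sum_const, Finset.card_range, nsmul_eq_mul, norm_neg, norm_div]
          push_cast
          gcongr
          exact norm_a_ge n j
      _ = (∑ j ∈ Finset.range (n + 1), (2 : ℝ) ^ j) * (‖z‖ / 4 ^ n) := by
          rw [Finset.sum_mul]
      _ ≤ (2 * 2 ^ n) * (‖z‖ / 4 ^ n) := by
          gcongr
          exact sum_two_pow n
      _ = ‖z‖ * (2 * (1 / 2) ^ n) := by
          have : (4 : ℝ) ^ n = 2 ^ n * 2 ^ n := by rw [← mul_pow]; norm_num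
          rw [this, one_div, inv_pow]; field_simp
  have := Real.exp_le_exp.mpr h2
  linarith

/-! ### Comparison of the blocks at different points -/

/-- squared modulus of a factor, cleared of the denominator -/
lemma normSq_factor (n j : ℕ) (z : ℂ) :
    normSq (1 - z / a n j) = ((4 ^ n - z.re) ^ 2 + (2 ^ j + z.im) ^ 2) / normSq (a n j) := by
  have h : 1 - z / a n j = (a n j - z) / a n j := by
    field_simp [a_ne n j]
  rw [h, normSq_div]
  congr 1
  rw [normSq_apply, sub_re, sub_im, a_re, a_im]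
  ring

lemma normSq_G (n : ℕ) (z : ℂ) :
    normSq (G n z) = ∏ j ∈ Finset.range (n + 1), (normSq (1 - z / a n j)) ^ (2 ^ j) := by
  unfold G
  rw [map_prod]
  simp

/-- Going up in the upper half-plane increases the modulus of every block. -/
lemma normSq_G_mono (n : ℕ) (z w : ℂ) (hre : z.re = w.re) (him : |z.im| ≤ w.im) :
    normSq (G n z) ≤ normSq (G n w) := by
  rw [normSq_G, normSq_G]
  refine Finset.prod_le_prod (fun j _ => by have := normSq_nonneg (1 - z / a n j); positivity)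
    fun j _ => ?_
  refine pow_le_pow_left₀ (normSq_nonneg _) ?_ _
  rw [normSq_factor, normSq_factor, hre]
  have h2 : (0 : ℝ) < 2 ^ j := by positivity
  have h3 := abs_le.mp him
  have h4 : (2 ^ j + z.im) ^ 2 ≤ (2 ^ j + w.im) ^ 2 := by nlinarith
  have := normSq_a_pos n j
  gcongr

/-- The real translation estimate for one factor. -/
lemma factor_translate (n j : ℕ) (t x : ℝ) :
    normSq (1 - ((t + x : ℝ) : ℂ) / a n j) ≤
      Real.exp (2 * |x| * (|4 ^ n - t| / ((4 ^ n - t) ^ 2 + (2 ^ j) ^ 2)) +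
        x ^ 2 * (1 / ((4 ^ n - t) ^ 2 + (2 ^ j) ^ 2))) * normSq (1 - (t : ℂ) / a n j) := by
  rw [normSq_factor, normSq_factor]
  simp only [ofReal_re, ofReal_im, add_zero]
  set D : ℝ := (4 ^ n - t) ^ 2 + (2 ^ j) ^ 2 with hD
  have hDpos : 0 < D := by
    have h2 : (0 : ℝ) < 2 ^ j := by positivity
    have : 0 < (2 ^ j : ℝ) ^ 2 := by positivity
    nlinarith [sq_nonneg ((4 : ℝ) ^ n - t)]
  have ha := normSq_a_pos n j
  rw [← mul_div_assoc]
  gcongr
  set e : ℝ := 2 * |x| * (|4 ^ n - t| / D) + x ^ 2 * (1 / D) with he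
  have h1 : e * D = 2 * |x| * |4 ^ n - t| + x ^ 2 := by
    rw [he]; field_simp
  have h2 : (e + 1) * D ≤ Real.exp e * D := by
    gcongr
    exact Real.add_one_le_exp e
  have h3 : -(x * (4 ^ n - t)) ≤ |x| * |4 ^ n - t| := by
    rw [← abs_mul]; exact neg_le_abs _
  nlinarith

/-- first sum -/
noncomputable def g1 (n : ℕ) (t : ℝ) : ℝ :=
  ∑ j ∈ Finset.range (n + 1), 2 ^ j * (|4 ^ n - t| / ((4 ^ n - t) ^ 2 + (2 ^ j) ^ 2))

/-- second sum -/
noncomputable def g2 (n : ℕ) (t : ℝ) : ℝ :=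
  ∑ j ∈ Finset.range (n + 1), 2 ^ j * (1 / ((4 ^ n - t) ^ 2 + (2 ^ j) ^ 2))

lemma G_translate (n : ℕ) (t x : ℝ) :
    normSq (G n ((t + x : ℝ) : ℂ)) ≤
      Real.exp (2 * |x| * g1 n t + x ^ 2 * g2 n t) * normSq (G n (t : ℂ)) := by
  rw [normSq_G, normSq_G, g1, g2, Finset.mul_sum, Finset.mul_sum, ← Finset.sum_add_distrib,
    Real.exp_sum, ← Finset.prod_mul_distrib]
  refine Finset.prod_le_prod
    (fun j _ => by have := normSq_nonneg (1 - ((t + x : ℝ) : ℂ) / a n j); positivity)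
    fun j _ => ?_
  refine (pow_le_pow_left₀ (normSq_nonneg _) (factor_translate n j t x) _).trans ?_
  rw [mul_pow, ← Real.exp_nat_mul]
  apply le_of_eq
  congr 2
  push_cast
  ring

lemma D_pos (n j : ℕ) (t : ℝ) : (0 : ℝ) < (4 ^ n - t) ^ 2 + (2 ^ j) ^ 2 := by
  have : 0 < (2 ^ j : ℝ) ^ 2 := by positivity
  nlinarith [sq_nonneg ((4 : ℝ) ^ n - t)]

/-- the far estimate for `g1` -/
lemma g1_far (n : ℕ) (t : ℝ) (h : (4 : ℝ) ^ n / 2 ≤ |4 ^ n - t|) : g1 n t ≤ 4 * (1 / 2) ^ n := by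
  have h4 : (0 : ℝ) < 4 ^ n := by positivity
  have habs : 0 < |4 ^ n - t| := by linarith
  calc g1 n t ≤ ∑ j ∈ Finset.range (n + 1), (2 : ℝ) ^ j * (2 / 4 ^ n) := by
        unfold g1
        refine Finset.sum_le_sum fun j _ => ?_
        refine mul_le_mul_of_nonneg_left ?_ (by positivity)
        rw [div_le_div_iff₀ (D_pos n j t) h4]
        have : |4 ^ n - t| * 4 ^ n ≤ 2 * |4 ^ n - t| ^ 2 := by nlinarith
        rw [sq_abs] at this
        nlinarith [sq_nonneg ((2 : ℝ) ^ j)]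
    _ = (∑ j ∈ Finset.range (n + 1), (2 : ℝ) ^ j) * (2 / 4 ^ n) := by rw [Finset.sum_mul]
    _ ≤ (2 * 2 ^ n) * (2 / 4 ^ n) := by
        gcongr
        exact sum_two_pow n
    _ = 4 * (1 / 2) ^ n := by
        have : (4 : ℝ) ^ n = 2 ^ n * 2 ^ n := by rw [← mul_pow]; norm_num
        rw [this, one_div, inv_pow]; field_simp; norm_num

/-- the far estimate for `g2` -/
lemma g2_far (n : ℕ) (t : ℝ) (h : (4 : ℝ) ^ n / 2 ≤ |4 ^ n - t|) : g2 n t ≤ 8 * (1 / 2) ^ n := by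
  have h4 : (0 : ℝ) < 4 ^ n := by positivity
  have h41 : (1 : ℝ) ≤ 4 ^ n := one_le_pow₀ (by norm_num)
  calc g2 n t ≤ ∑ j ∈ Finset.range (n + 1), (2 : ℝ) ^ j * (4 / 4 ^ n) := by
        unfold g2
        refine Finset.sum_le_sum fun j _ => ?_
        refine mul_le_mul_of_nonneg_left ?_ (by positivity)
        rw [div_le_div_iff₀ (D_pos n j t) h4]
        have h1 : (4 : ℝ) ^ n * 4 ^ n ≤ 4 * |4 ^ n - t| ^ 2 := by nlinarith
        rw [sq_abs] at h1
        nlinarith [sq_nonneg ((2 : ℝ) ^ j)]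
    _ = (∑ j ∈ Finset.range (n + 1), (2 : ℝ) ^ j) * (4 / 4 ^ n) := by rw [Finset.sum_mul]
    _ ≤ (2 * 2 ^ n) * (4 / 4 ^ n) := by
        gcongr
        exact sum_two_pow n
    _ = 8 * (1 / 2) ^ n := by
        have : (4 : ℝ) ^ n = 2 ^ n * 2 ^ n := by rw [← mul_pow]; norm_num
        rw [this, one_div, inv_pow]; field_simp; norm_num

lemma dyadic_step (u b : ℝ) (hu : 0 ≤ u) (hb : 0 < b) :
    b * (u / (u ^ 2 + b ^ 2)) ≤ 4 * (2 * b / (u + 2 * b)) - 4 * (b / (u + b)) := by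
  have h1 : 4 * (2 * b / (u + 2 * b)) - 4 * (b / (u + b)) =
      4 * (b * u) / ((u + 2 * b) * (u + b)) := by
    field_simp; ring
  have h2 : b * (u / (u ^ 2 + b ^ 2)) = (b * u) / (u ^ 2 + b ^ 2) := by ring
  rw [h1, h2, div_le_div_iff₀ (by positivity) (by positivity)]
  have h3 : (u + 2 * b) * (u + b) ≤ 4 * (u ^ 2 + b ^ 2) := by
    nlinarith [sq_nonneg (u - b)]
  have h4 : 0 ≤ b * u := by positivity
  nlinarith

/-- dyadic sum -/
lemma dyadic_sum (u : ℝ) (hu : 0 ≤ u) (n : ℕ) :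
    ∑ j ∈ Finset.range n, 2 ^ j * (u / (u ^ 2 + (2 ^ j) ^ 2)) ≤ 4 := by
  have key : ∀ n : ℕ, ∑ j ∈ Finset.range n, 2 ^ j * (u / (u ^ 2 + (2 ^ j) ^ 2)) ≤
      4 * (2 ^ n / (u + 2 ^ n)) := by
    intro n
    induction n with
    | zero => simp; positivity
    | succ n ih =>
      rw [Finset.sum_range_succ]
      have := dyadic_step u (2 ^ n) hu (by positivity)
      have h5 : (2 : ℝ) ^ (n + 1) = 2 * 2 ^ n := by ring
      rw [h5]
      linarith
  refine (key n).trans ?_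
  have : (2 : ℝ) ^ n / (u + 2 ^ n) ≤ 1 := by
    rw [div_le_one (by positivity)]; linarith
  linarith

lemma g1_le (n : ℕ) (t : ℝ) : g1 n t ≤ 4 := by
  have := dyadic_sum |4 ^ n - t| (abs_nonneg _) (n + 1)
  rw [sq_abs] at this
  exact this

lemma g2_le (n : ℕ) (t : ℝ) : g2 n t ≤ 4 := by
  calc g2 n t ≤ ∑ j ∈ Finset.range (n + 1), (1 / (2 : ℝ)) ^ j := by
        unfold g2
        refine Finset.sum_le_sum fun j _ => ?_
        have h2 : (0 : ℝ) < 2 ^ j := by positivity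
        rw [one_div, ← div_eq_mul_inv, one_div, inv_pow, ← one_div,
          div_le_div_iff₀ (D_pos n j t) h2]
        nlinarith [sq_nonneg ((4 : ℝ) ^ n - t)]
    _ ≤ 2 := sum_geometric_two_le _
    _ ≤ 4 := by norm_num

/-- At most one block is close to `t`. -/
lemma near_card (N : ℕ) (t : ℝ) :
    (((Finset.range N).filter fun n => ¬ ((4 : ℝ) ^ n / 2 ≤ |4 ^ n - t|)).card : ℝ) ≤ 1 := by
  have : ((Finset.range N).filter fun n => ¬ ((4 : ℝ) ^ n / 2 ≤ |4 ^ n - t|)).card ≤ 1 := by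
    rw [Finset.card_le_one]
    intro p hp q hq
    simp only [Finset.mem_filter, not_le] at hp hq
    have key : ∀ p q : ℕ, |(4 : ℝ) ^ p - t| < 4 ^ p / 2 → |(4 : ℝ) ^ q - t| < 4 ^ q / 2 →
        ¬ p < q := by
      intro p q hp hq hpq
      rw [abs_lt] at hp hq
      have h1 : (4 : ℝ) ^ (p + 1) ≤ 4 ^ q := pow_le_pow_right₀ (by norm_num) hpq
      have h2 : (0 : ℝ) < 4 ^ p := by positivity
      rw [pow_succ] at h1
      linarith [hp.1, hp.2, hq.1, hq.2]
    rcases lt_trichotomy p q with h | h | h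
    · exact absurd h (key p q hp.2 hq.2)
    · exact h
    · exact absurd h (key q p hq.2 hp.2)
  exact_mod_cast this

lemma sum_bound (g : ℕ → ℝ → ℝ) (h1 : ∀ n t, g n t ≤ 4)
    (h2 : ∀ (n : ℕ) (t : ℝ), (4 : ℝ) ^ n / 2 ≤ |4 ^ n - t| → g n t ≤ 8 * (1 / 2) ^ n)
    (N : ℕ) (t : ℝ) : ∑ n ∈ Finset.range N, g n t ≤ 20 := by
  calc ∑ n ∈ Finset.range N, g n t
      ≤ ∑ n ∈ Finset.range N, (8 * (1 / 2 : ℝ) ^ n +
          if ¬ ((4 : ℝ) ^ n / 2 ≤ |4 ^ n - t|) then 4 else 0) := by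
        refine Finset.sum_le_sum fun n _ => ?_
        have h3 : (0 : ℝ) ≤ 8 * (1 / 2) ^ n := by positivity
        by_cases h : (4 : ℝ) ^ n / 2 ≤ |4 ^ n - t|
        · rw [if_neg (not_not.mpr h)]
          linarith [h2 n t h]
        · rw [if_pos h]
          linarith [h1 n t]
    _ = 8 * (∑ n ∈ Finset.range N, (1 / 2 : ℝ) ^ n) +
          (((Finset.range N).filter fun n => ¬ ((4 : ℝ) ^ n / 2 ≤ |4 ^ n - t|)).card : ℝ) * 4 := by
        rw [Finset.sum_add_distrib, Finset.mul_sum, ← Finset.sum_filter, Finset.sum_const,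
          nsmul_eq_mul]
    _ ≤ 8 * 2 + 1 * 4 := by
        gcongr
        · exact sum_geometric_two_le _
        · exact near_card N t
    _ = 20 := by norm_num

lemma g1_sum (N : ℕ) (t : ℝ) : ∑ n ∈ Finset.range N, g1 n t ≤ 20 :=
  sum_bound g1 g1_le (fun n t h => (g1_far n t h).trans (by
    have : (0 : ℝ) ≤ (1 / 2) ^ n := by positivity
    linarith)) N t

lemma g2_sum (N : ℕ) (t : ℝ) : ∑ n ∈ Finset.range N, g2 n t ≤ 20 :=
  sum_bound g2 g2_le g2_far N t

/-- partial products -/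
noncomputable def P (N : ℕ) (z : ℂ) : ℂ := ∏ n ∈ Finset.range N, G n z

lemma P_translate (N : ℕ) (t x : ℝ) :
    normSq (P N ((t + x : ℝ) : ℂ)) ≤
      Real.exp (40 * |x| + 20 * x ^ 2) * normSq (P N (t : ℂ)) := by
  unfold P
  rw [map_prod, map_prod]
  calc ∏ n ∈ Finset.range N, normSq (G n ((t + x : ℝ) : ℂ))
      ≤ ∏ n ∈ Finset.range N,
        (Real.exp (2 * |x| * g1 n t + x ^ 2 * g2 n t) * normSq (G n (t : ℂ))) :=
        Finset.prod_le_prod (fun n _ => normSq_nonneg _) fun n _ => G_translate n t x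
    _ = Real.exp (2 * |x| * (∑ n ∈ Finset.range N, g1 n t) +
          x ^ 2 * (∑ n ∈ Finset.range N, g2 n t)) *
          ∏ n ∈ Finset.range N, normSq (G n (t : ℂ)) := by
        rw [Finset.prod_mul_distrib, ← Real.exp_sum, Finset.sum_add_distrib, Finset.mul_sum,
          Finset.mul_sum]
    _ ≤ Real.exp (40 * |x| + 20 * x ^ 2) * ∏ n ∈ Finset.range N, normSq (G n (t : ℂ)) := by
        have h0 : 0 ≤ ∏ n ∈ Finset.range N, normSq (G n (t : ℂ)) :=
          Finset.prod_nonneg fun n _ => normSq_nonneg _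
        refine mul_le_mul_of_nonneg_right (Real.exp_le_exp.mpr ?_) h0
        have e1 := mul_le_mul_of_nonneg_left (g1_sum N t) (show (0 : ℝ) ≤ 2 * |x| by positivity)
        have e2 := mul_le_mul_of_nonneg_left (g2_sum N t) (sq_nonneg x)
        linarith

lemma P_mono (N : ℕ) (z w : ℂ) (hre : z.re = w.re) (him : |z.im| ≤ w.im) :
    normSq (P N z) ≤ normSq (P N w) := by
  unfold P
  rw [map_prod, map_prod]
  exact Finset.prod_le_prod (fun n _ => normSq_nonneg _) fun n _ => normSq_G_mono n z w hre him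

/-- the growth of the `m`-th block in the imaginary direction over the interval around `4^m` -/
lemma G_growth (m : ℕ) (t y : ℝ) (ht : |4 ^ m - t| ≤ 1) (hy : 0 ≤ y) :
    (1 + y) ^ (m + 1) * normSq (G m (t : ℂ)) ≤ normSq (G m (⟨t, y⟩ : ℂ)) := by
  rw [normSq_G, normSq_G]
  have : (1 + y) ^ (m + 1) = ∏ _j ∈ Finset.range (m + 1), (1 + y) := by simp
  rw [this, ← Finset.prod_mul_distrib]
  refine Finset.prod_le_prod
    (fun j _ => by have := normSq_nonneg (1 - (t : ℂ) / a m j); positivity) fun j _ => ?_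
  have hb : (1 : ℝ) ≤ 2 ^ j := one_le_pow₀ (by norm_num)
  have hfac : (1 + y / 2 ^ j) * normSq (1 - (t : ℂ) / a m j) ≤
      normSq (1 - (⟨t, y⟩ : ℂ) / a m j) := by
    rw [normSq_factor, normSq_factor]
    simp only [ofReal_re, ofReal_im, add_zero]
    rw [← mul_div_assoc]
    have ha := normSq_a_pos m j
    gcongr
    set b : ℝ := 2 ^ j with hbdef
    set v : ℝ := 4 ^ m - t with hv
    have hv2 : v ^ 2 ≤ 1 := by rw [← sq_abs]; nlinarith [abs_nonneg v]
    have hb0 : 0 < b := by linarith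
    have e1 : (1 + y / b) * (v ^ 2 + b ^ 2) = v ^ 2 + b ^ 2 + (y / b) * v ^ 2 + y * b := by
      field_simp
      ring
    rw [e1]
    have e2 : (y / b) * v ^ 2 ≤ y * b := by
      rw [div_mul_eq_mul_div, div_le_iff₀ hb0]
      have : v ^ 2 ≤ b * b := by nlinarith
      nlinarith
    nlinarith
  calc (1 + y) * normSq (1 - (t : ℂ) / a m j) ^ (2 ^ j)
      ≤ (1 + y / 2 ^ j) ^ (2 ^ j) * normSq (1 - (t : ℂ) / a m j) ^ (2 ^ j) := by
        have h0 := normSq_nonneg (1 - (t : ℂ) / a m j)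
        gcongr
        have h1 := one_add_mul_le_pow (a := y / 2 ^ j)
          (by have : 0 ≤ y / 2 ^ j := by positivity
              linarith) (2 ^ j)
        push_cast at h1
        have h2 : (2 : ℝ) ^ j * (y / 2 ^ j) = y := by field_simp
        rw [h2] at h1
        exact h1
    _ = ((1 + y / 2 ^ j) * normSq (1 - (t : ℂ) / a m j)) ^ (2 ^ j) := by rw [mul_pow]
    _ ≤ (normSq (1 - (⟨t, y⟩ : ℂ) / a m j)) ^ (2 ^ j) := by
        have h0 := normSq_nonneg (1 - (t : ℂ) / a m j)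
        refine pow_le_pow_left₀ (by positivity) hfac _

lemma P_growth (N m : ℕ) (hm : m < N) (t y : ℝ) (ht : |4 ^ m - t| ≤ 1) (hy : 0 ≤ y) :
    (1 + y) ^ (m + 1) * normSq (P N (t : ℂ)) ≤ normSq (P N (⟨t, y⟩ : ℂ)) := by
  unfold P
  rw [map_prod, map_prod, ← Finset.mul_prod_erase _ _ (Finset.mem_range.mpr hm),
    ← Finset.mul_prod_erase (Finset.range N) (fun n => normSq (G n (⟨t, y⟩ : ℂ)))
      (Finset.mem_range.mpr hm), ← mul_assoc]
  have h0 : 0 ≤ ∏ n ∈ (Finset.range N).erase m, normSq (G n (t : ℂ)) :=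
    Finset.prod_nonneg fun n _ => normSq_nonneg _
  refine mul_le_mul (G_growth m t y ht hy) ?_ h0 (normSq_nonneg _)
  refine Finset.prod_le_prod (fun n _ => normSq_nonneg _) fun n _ => ?_
  exact normSq_G_mono n _ _ (by simp) (by simpa using hy)

/-! ### The infinite product -/

/-- partial products without the zeroth block -/
noncomputable def P' (N : ℕ) (z : ℂ) : ℂ := ∏ n ∈ Finset.range N, G (n + 1) z

lemma P_succ (N : ℕ) (z : ℂ) : P (N + 1) z = G 0 z * P' N z := by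
  unfold P P'
  rw [Finset.prod_range_succ', mul_comm]

/-- `f(z) = ∏_{n ≥ 1} G_n(z)`, a member of `H(E)`. -/
noncomputable def f (z : ℂ) : ℂ := ∏' n : ℕ, G (n + 1) z

/-- The counterexample: `E(z) = ∏_{n ≥ 0} ∏_{j ≤ n} (1 - z/(4^n - 2^j i))^(2^j)`. -/
noncomputable def E (z : ℂ) : ℂ := G 0 z * f z

lemma G_bound (R : ℝ) (hR : 0 ≤ R) (n : ℕ) (z : ℂ) (hz : ‖z‖ ≤ R) :
    ‖G (n + 1) z - 1‖ ≤ (R * Real.exp R) * (1 / 2) ^ n := by
  have h1 := G_sub_one (n + 1) z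
  have hp : (0 : ℝ) < (1 / 2) ^ n := by positivity
  have hp1 : ((1 : ℝ) / 2) ^ n ≤ 1 := pow_le_one₀ (by norm_num) (by norm_num)
  have h2 : ‖z‖ * (2 * (1 / 2) ^ (n + 1)) = ‖z‖ * (1 / 2) ^ n := by
    rw [pow_succ]; ring
  rw [h2] at h1
  have h3 : ‖z‖ * (1 / 2) ^ n ≤ R * (1 / 2) ^ n := by gcongr
  have h4 : Real.exp (‖z‖ * (1 / 2) ^ n) ≤ Real.exp (R * (1 / 2) ^ n) := Real.exp_le_exp.mpr h3
  -- exp x - 1 ≤ x exp x
  have h5 : ∀ x : ℝ, 0 ≤ x → Real.exp x - 1 ≤ x * Real.exp x := by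
    intro x _
    have h6 := Real.add_one_le_exp (-x)
    have h7 : Real.exp (-x) * Real.exp x = 1 := by rw [← Real.exp_add]; simp
    nlinarith [Real.exp_pos x]
  have h8 := h5 (R * (1 / 2) ^ n) (by positivity)
  have h9 : Real.exp (R * (1 / 2) ^ n) ≤ Real.exp R := by
    apply Real.exp_le_exp.mpr
    nlinarith
  calc ‖G (n + 1) z - 1‖ ≤ Real.exp (R * (1 / 2) ^ n) - 1 := by linarith
    _ ≤ R * (1 / 2) ^ n * Real.exp (R * (1 / 2) ^ n) := h8
    _ ≤ R * (1 / 2) ^ n * Real.exp R := by gcongr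
    _ = (R * Real.exp R) * (1 / 2) ^ n := by ring

lemma hasProdLocallyUniformlyOn_ball (R : ℝ) (hR : 0 ≤ R) :
    HasProdLocallyUniformlyOn (fun n z => 1 + (G (n + 1) z - 1))
      (fun z => ∏' n, (1 + (G (n + 1) z - 1))) (Metric.ball (0 : ℂ) R) := by
  refine Summable.hasProdLocallyUniformlyOn_nat_one_add Metric.isOpen_ball
    (u := fun n => (R * Real.exp R) * (1 / 2) ^ n)
    (summable_geometric_two.mul_left _) (Eventually.of_forall fun n z hz => ?_)
    (fun n => ((G_differentiable (n + 1)).sub_const 1).continuous.continuousOn)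
  exact G_bound R hR n z (by simpa using (Metric.mem_ball.mp hz).le)

lemma f_eq (z : ℂ) : f z = ∏' n, (1 + (G (n + 1) z - 1)) := by
  unfold f; congr 1; ext n; ring

lemma f_differentiable : Differentiable ℂ f := by
  have h : f = fun z => ∏' n, (1 + (G (n + 1) z - 1)) := funext f_eq
  rw [h]
  intro z
  have hd : DifferentiableOn ℂ (fun z => ∏' n, (1 + (G (n + 1) z - 1)))
      (Metric.ball (0 : ℂ) (‖z‖ + 1)) := by
    refine (hasProdLocallyUniformlyOn_ball (‖z‖ + 1) (by positivity)).differentiableOn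
      (.of_forall fun s => ?_) Metric.isOpen_ball
    have : Differentiable ℂ (fun z => ∏ n ∈ s, (1 + (G (n + 1) z - 1))) := by
      apply Differentiable.fun_finsetProd
      intro n _
      exact ((G_differentiable (n + 1)).sub_const 1).const_add 1
    simpa [Finset.prod_fn] using this.differentiableOn
  exact hd.differentiableAt (Metric.isOpen_ball.mem_nhds (by simp))

lemma P'_tendsto (z : ℂ) : Tendsto (fun N => P' N z) atTop (𝓝 (f z)) := by
  have h : Multipliable (fun n : ℕ => 1 + (G (n + 1) z - 1)) := by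
    apply multipliable_one_add_of_summable
    refine Summable.of_nonneg_of_le (fun n => norm_nonneg _)
      (fun n => G_bound ‖z‖ (norm_nonneg z) n z le_rfl) (summable_geometric_two.mul_left _)
  have h2 := h.hasProd.tendsto_prod_nat
  rw [← f_eq] at h2
  refine h2.congr fun N => ?_
  unfold P'
  refine Finset.prod_congr rfl fun n _ => ?_
  ring

lemma P_tendsto (z : ℂ) : Tendsto (fun N => P (N + 1) z) atTop (𝓝 (E z)) := by
  have := (P'_tendsto z).const_mul (G 0 z)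
  refine this.congr fun N => ?_
  rw [P_succ]

lemma nP_tendsto (z : ℂ) : Tendsto (fun N => normSq (P (N + 1) z)) atTop (𝓝 (normSq (E z))) :=
  (continuous_normSq.tendsto _).comp (P_tendsto z)

lemma nP'_tendsto (z : ℂ) : Tendsto (fun N => normSq (P' N z)) atTop (𝓝 (normSq (f z))) :=
  (continuous_normSq.tendsto _).comp (P'_tendsto z)

lemma E_translate (t x : ℝ) :
    normSq (E ((t + x : ℝ) : ℂ)) ≤ Real.exp (40 * |x| + 20 * x ^ 2) * normSq (E (t : ℂ)) :=
  le_of_tendsto_of_tendsto' (nP_tendsto _) ((nP_tendsto _).const_mul _)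
    fun N => P_translate (N + 1) t x

lemma E_mono (z w : ℂ) (hre : z.re = w.re) (him : |z.im| ≤ w.im) :
    normSq (E z) ≤ normSq (E w) :=
  le_of_tendsto_of_tendsto' (nP_tendsto _) (nP_tendsto _) fun N => P_mono (N + 1) z w hre him

lemma P'_mono (N : ℕ) (z w : ℂ) (hre : z.re = w.re) (him : |z.im| ≤ w.im) :
    normSq (P' N z) ≤ normSq (P' N w) := by
  unfold P'
  rw [map_prod, map_prod]
  exact Finset.prod_le_prod (fun n _ => normSq_nonneg _)
    fun n _ => normSq_G_mono (n + 1) z w hre him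

lemma f_mono (z w : ℂ) (hre : z.re = w.re) (him : |z.im| ≤ w.im) :
    normSq (f z) ≤ normSq (f w) :=
  le_of_tendsto_of_tendsto' (nP'_tendsto _) (nP'_tendsto _) fun N => P'_mono N z w hre him

lemma E_growth (m : ℕ) (t y : ℝ) (ht : |4 ^ m - t| ≤ 1) (hy : 0 ≤ y) :
    (1 + y) ^ (m + 1) * normSq (E (t : ℂ)) ≤ normSq (E (⟨t, y⟩ : ℂ)) := by
  refine le_of_tendsto_of_tendsto ((nP_tendsto _).const_mul _) (nP_tendsto _) ?_
  filter_upwards [eventually_ge_atTop m] with N hN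
  exact P_growth (N + 1) m (by omega) t y ht hy

lemma G_zero_eq (z : ℂ) : G 0 z = 1 - z / a 0 0 := by
  simp [G]

lemma G_zero_at (n : ℕ) : G n 0 = 1 := by
  simp [G]

lemma E_zero : E 0 = 1 := by
  unfold E f
  simp [G_zero_at]

lemma E_real_ne (t : ℝ) : E (t : ℂ) ≠ 0 := by
  intro h
  have := E_translate t (-t)
  rw [h] at this
  simp [E_zero] at this
  norm_num at this

lemma E_upper_ne (z : ℂ) (hz : 0 ≤ z.im) : E z ≠ 0 := by
  intro h
  have h1 := E_mono (z.re : ℂ) z (by simp) (by simpa using hz)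
  rw [h] at h1
  simp only [map_zero] at h1
  have h2 : 0 < normSq (E (z.re : ℂ)) := normSq_pos.mpr (E_real_ne z.re)
  linarith

lemma norm_le_of_normSq {z w : ℂ} (h : normSq z ≤ normSq w) : ‖z‖ ≤ ‖w‖ := by
  rw [normSq_eq_norm_sq, normSq_eq_norm_sq] at h
  exact (sq_le_sq₀ (norm_nonneg _) (norm_nonneg _)).mp h

lemma norm_lt_of_normSq {z w : ℂ} (h : normSq z < normSq w) : ‖z‖ < ‖w‖ := by
  rw [normSq_eq_norm_sq, normSq_eq_norm_sq] at h
  exact (sq_lt_sq₀ (norm_nonneg _) (norm_nonneg _)).mp h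

lemma f_upper_ne (z : ℂ) (hz : 0 ≤ z.im) : f z ≠ 0 := by
  intro h
  exact E_upper_ne z hz (by rw [E, h, mul_zero])

lemma E_hermiteBiehler : IsHermiteBiehler E := by
  constructor
  · exact (G_differentiable 0).mul f_differentiable
  · intro z hz
    have h1 : ‖f (conj z)‖ ≤ ‖f z‖ := norm_le_of_normSq (f_mono _ _ (by simp) (by
      simp [abs_of_pos hz]))
    have h2 : ‖G 0 (conj z)‖ < ‖G 0 z‖ := by
      apply norm_lt_of_normSq
      rw [G_zero_eq, G_zero_eq, normSq_factor, normSq_factor]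
      have := normSq_a_pos 0 0
      apply div_lt_div_of_pos_right _ this
      simp only [conj_re, conj_im]
      nlinarith
    rw [E, E, norm_mul, norm_mul]
    have h3 : 0 < ‖f z‖ := norm_pos_iff.mpr (f_upper_ne z hz.le)
    calc ‖G 0 (conj z)‖ * ‖f (conj z)‖ ≤ ‖G 0 (conj z)‖ * ‖f z‖ := by gcongr
      _ < ‖G 0 z‖ * ‖f z‖ := by gcongr

lemma norm_G_le (n : ℕ) (z : ℂ) : ‖G n z‖ ≤ Real.exp (‖z‖ * (2 * (1 / 2) ^ n)) := by
  have h := G_sub_one n z
  have : ‖G n z‖ ≤ ‖G n z - 1‖ + ‖(1 : ℂ)‖ := by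
    have := norm_add_le (G n z - 1) 1
    simpa using this
  simp only [norm_one] at this
  linarith

lemma E_type : IsFiniteExponentialType E := by
  refine ⟨1, 4, fun z => ?_⟩
  rw [one_mul]
  refine le_of_tendsto' ((continuous_norm.tendsto _).comp (P_tendsto z)) fun N => ?_
  simp only [Function.comp]
  unfold P
  rw [norm_prod]
  calc ∏ n ∈ Finset.range (N + 1), ‖G n z‖
      ≤ ∏ n ∈ Finset.range (N + 1), Real.exp (‖z‖ * (2 * (1 / 2) ^ n)) :=
        Finset.prod_le_prod (fun n _ => norm_nonneg _) fun n _ => norm_G_le n z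
    _ = Real.exp (∑ n ∈ Finset.range (N + 1), ‖z‖ * (2 * (1 / 2) ^ n)) := by
        rw [Real.exp_sum]
    _ ≤ Real.exp (4 * ‖z‖) := by
        apply Real.exp_le_exp.mpr
        rw [← Finset.mul_sum, ← Finset.mul_sum]
        have := sum_geometric_two_le (N + 1)
        nlinarith [norm_nonneg z]

lemma E_bounded_translates (x : ℝ) :
    BddAbove (Set.range fun t : ℝ => ‖E ((t : ℂ) + (x : ℂ)) / E (t : ℂ)‖) := by
  refine ⟨Real.exp (40 * |x| + 20 * x ^ 2), ?_⟩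
  rintro _ ⟨t, rfl⟩
  have h := E_translate t x
  have h1 : 1 ≤ Real.exp (40 * |x| + 20 * x ^ 2) := Real.one_le_exp (by positivity)
  simp only
  rw [norm_div, div_le_iff₀ (norm_pos_iff.mpr (E_real_ne t))]
  rw [normSq_eq_norm_sq, normSq_eq_norm_sq] at h
  push_cast at h
  have h2 : ‖E ((t : ℂ) + (x : ℂ))‖ ^ 2 ≤ (Real.exp (40 * |x| + 20 * x ^ 2) * ‖E (t : ℂ)‖) ^ 2 := by
    rw [mul_pow]
    refine h.trans ?_
    gcongr
    nlinarith
  exact (sq_le_sq₀ (norm_nonneg _) (by positivity)).mp h2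

/-! ### `f` belongs to `H(E)` -/

lemma normSq_G_zero (z : ℂ) : normSq (G 0 z) = ((1 - z.re) ^ 2 + (1 + z.im) ^ 2) / 2 := by
  rw [G_zero_eq, normSq_factor, normSq_apply, a_re, a_im]
  norm_num

lemma meanType_nonpos (g : ℂ → ℂ) (hg : ∀ z : ℂ, 0 < z.im → ‖g z‖ ≤ 2) : meanType g ≤ 0 := by
  have h1 : Tendsto (fun y : ℝ => ((Real.log 2 / y : ℝ) : EReal)) atTop (𝓝 ((0 : ℝ) : EReal)) :=
    (continuous_coe_real_ereal.tendsto _).comp (tendsto_const_nhds.div_atTop tendsto_id)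
  unfold meanType
  rw [← EReal.coe_zero, ← h1.limsup_eq]
  refine limsup_le_limsup ?_
  filter_upwards [eventually_gt_atTop 0] with y hy
  rw [EReal.coe_div]
  refine EReal.div_le_div_right_of_nonneg (by exact_mod_cast hy.le) ?_
  have h2 : ‖g ((y : ℂ) * I)‖ₑ ≤ ENNReal.ofReal 2 := by
    rw [← ofReal_norm]
    exact ENNReal.ofReal_le_ofReal (hg _ (by simpa using hy))
  have h3 := ENNReal.log_monotone h2
  rwa [ENNReal.log_ofReal_of_pos (by norm_num)] at h3

lemma isBoundedType_of_bound (g : ℂ → ℂ) (hd : DifferentiableOn ℂ g {z : ℂ | 0 < z.im})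
    (hg : ∀ z : ℂ, 0 < z.im → ‖g z‖ ≤ 2) : IsBoundedType g := by
  refine ⟨hd, g, fun _ => 1, hd, differentiableOn_const _, ⟨2, hg⟩, ⟨1, fun z _ => by simp⟩,
    ⟨I, by simp, by simp⟩, fun z _ => by simp⟩

lemma f_div_E (z : ℂ) (hz : 0 ≤ z.im) : f z / E z = (G 0 z)⁻¹ := by
  have := f_upper_ne z hz
  rw [E]
  field_simp

lemma norm_f_div_E (z : ℂ) (hz : 0 < z.im) : ‖f z / E z‖ ≤ 2 := by
  rw [f_div_E z hz.le, norm_inv]
  have h1 := normSq_G_zero z
  rw [normSq_eq_norm_sq] at h1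
  have h2 : (1 / 2) ^ 2 ≤ ‖G 0 z‖ ^ 2 := by
    rw [h1]; nlinarith [sq_nonneg (1 - z.re)]
  have h3 : (1 / 2 : ℝ) ≤ ‖G 0 z‖ := (sq_le_sq₀ (by norm_num) (norm_nonneg _)).mp h2
  calc ‖G 0 z‖⁻¹ ≤ (1 / 2 : ℝ)⁻¹ := by gcongr
    _ = 2 := by norm_num

lemma norm_f_conj_div_E (z : ℂ) (hz : 0 < z.im) : ‖conjFun f z / E z‖ ≤ 2 := by
  refine le_trans ?_ (norm_f_div_E z hz)
  rw [norm_div, norm_div]
  have : ‖conjFun f z‖ ≤ ‖f z‖ := by
    unfold conjFun
    rw [norm_conj]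
    exact norm_le_of_normSq (f_mono _ _ (by simp) (by simp [abs_of_pos hz]))
  gcongr

lemma conjFun_differentiable (F : ℂ → ℂ) (hF : Differentiable ℂ F) :
    Differentiable ℂ (conjFun F) := fun z => by
  have := (hF (conj z)).conj_conj
  rw [Complex.conj_conj] at this
  exact this

lemma f_norm_lt : deBrangesNorm E f < ∞ := by
  unfold deBrangesNorm
  refine ENNReal.rpow_lt_top_of_nonneg (by norm_num) (ne_of_lt ?_)
  have hint : Integrable (fun t : ℝ => 2 * (1 + (t - 1) ^ 2)⁻¹) :=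
    (integrable_inv_one_add_sq.comp_sub_right 1).const_mul 2
  have : ∀ t : ℝ, ‖f (t : ℂ) / E (t : ℂ)‖ₑ ^ 2 ≤ ENNReal.ofReal (2 * (1 + (t - 1) ^ 2)⁻¹) := by
    intro t
    rw [f_div_E (t : ℂ) (by simp), ← ofReal_norm, ← ENNReal.ofReal_pow (norm_nonneg _)]
    apply ENNReal.ofReal_le_ofReal
    rw [norm_inv, inv_pow, ← normSq_eq_norm_sq, normSq_G_zero]
    simp only [ofReal_re, ofReal_im, add_zero]
    apply le_of_eq
    have h1 : (1 - t) ^ 2 + 1 ^ 2 = 1 + (t - 1) ^ 2 := by ring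
    rw [h1, inv_div, div_eq_mul_inv]
  calc ∫⁻ t : ℝ, ‖f (t : ℂ) / E (t : ℂ)‖ₑ ^ 2
      ≤ ∫⁻ t : ℝ, ENNReal.ofReal (2 * (1 + (t - 1) ^ 2)⁻¹) := lintegral_mono this
    _ < ∞ := by
        have := hint.lintegral_lt_top
        simpa using this

lemma f_mem : f ∈ deBrangesSpace E := by
  have hE : ∀ z : ℂ, z ∈ {z : ℂ | 0 < z.im} → E z ≠ 0 := fun z hz => E_upper_ne z (le_of_lt hz)
  have d1 : DifferentiableOn ℂ (fun z => f z / E z) {z : ℂ | 0 < z.im} :=
    f_differentiable.differentiableOn.div E_hermiteBiehler.1.differentiableOn hE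
  have d2 : DifferentiableOn ℂ (fun z => conjFun f z / E z) {z : ℂ | 0 < z.im} :=
    (conjFun_differentiable f f_differentiable).differentiableOn.div
      E_hermiteBiehler.1.differentiableOn hE
  exact ⟨f_differentiable, f_norm_lt, isBoundedType_of_bound _ d1 norm_f_div_E,
    meanType_nonpos _ norm_f_div_E, isBoundedType_of_bound _ d2 norm_f_conj_div_E,
    meanType_nonpos _ norm_f_conj_div_E⟩

/-! ### The translate of `f` by `31 i` does not belong to `H(E)` -/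

lemma translate_lower (m : ℕ) (t : ℝ) (ht : |4 ^ m - t| ≤ 1) :
    (2 : ℝ) ^ m / 40 ≤ ‖translate f (31 * I) (t : ℂ) / E (t : ℂ)‖ ^ 2 := by
  have h1 := E_growth m t 31 ht (by norm_num)
  have hz : (t : ℂ) + 31 * I = (⟨t, 31⟩ : ℂ) := by
    apply Complex.ext <;> simp
  have hEt : 0 < normSq (E (t : ℂ)) := normSq_pos.mpr (E_real_ne t)
  have hG := normSq_G_zero (⟨t, 31⟩ : ℂ)
  simp only at hG
  have hGpos : 0 < normSq (G 0 (⟨t, 31⟩ : ℂ)) := by rw [hG]; nlinarith [sq_nonneg (1 - t)]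
  have h3 : normSq (E (⟨t, 31⟩ : ℂ)) = normSq (G 0 (⟨t, 31⟩ : ℂ)) * normSq (f (⟨t, 31⟩ : ℂ)) := by
    rw [E, normSq_mul]
  unfold translate
  rw [hz, norm_div, div_pow, ← normSq_eq_norm_sq, ← normSq_eq_norm_sq, div_le_div_iff₀ (by norm_num) hEt]
  -- bound on G 0
  have h4m : (1 : ℝ) ≤ 4 ^ m := one_le_pow₀ (by norm_num)
  have hGle : normSq (G 0 (⟨t, 31⟩ : ℂ)) ≤ 520 * 16 ^ m := by
    rw [hG]
    have : (16 : ℝ) ^ m = 4 ^ m * 4 ^ m := by rw [← mul_pow]; norm_num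
    rw [this]
    have h5 := abs_le.mp ht
    nlinarith
  have h5 : (1 + 31 : ℝ) ^ (m + 1) = 32 * 2 ^ m * 16 ^ m := by
    rw [mul_assoc, ← mul_pow, pow_succ]; norm_num; ring
  rw [h5, h3] at h1
  have h16 : (0 : ℝ) < 16 ^ m := by positivity
  have hf0 := normSq_nonneg (f (⟨t, 31⟩ : ℂ))
  have h6 : 32 * 2 ^ m * 16 ^ m * normSq (E (t : ℂ)) ≤
      520 * 16 ^ m * normSq (f (⟨t, 31⟩ : ℂ)) := h1.trans (by gcongr)
  have h7 : 32 * 2 ^ m * normSq (E (t : ℂ)) ≤ 520 * normSq (f (⟨t, 31⟩ : ℂ)) := by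
    have : 16 ^ m * (32 * 2 ^ m * normSq (E (t : ℂ))) ≤
      16 ^ m * (520 * normSq (f (⟨t, 31⟩ : ℂ))) := by linarith
    exact le_of_mul_le_mul_left this h16
  have h2m : (0 : ℝ) < 2 ^ m := by positivity
  nlinarith [mul_pos h2m hEt]

lemma translate_norm_top : deBrangesNorm E (translate f (31 * I)) = ∞ := by
  have key : ∫⁻ t : ℝ, ‖translate f (31 * I) (t : ℂ) / E (t : ℂ)‖ₑ ^ 2 = ∞ := by
    refine ENNReal.eq_top_of_forall_nnreal_le fun r => ?_
    obtain ⟨m, hm⟩ := pow_unbounded_of_one_lt (40 * (r : ℝ)) (by norm_num : (1 : ℝ) < 2)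
    calc (r : ℝ≥0∞) ≤ ENNReal.ofReal ((2 : ℝ) ^ m / 40) * 1 := by
          rw [mul_one, ← ENNReal.ofReal_coe_nnreal]
          apply ENNReal.ofReal_le_ofReal
          linarith
      _ = ∫⁻ _t in Set.Icc ((4 : ℝ) ^ m) (4 ^ m + 1), ENNReal.ofReal ((2 : ℝ) ^ m / 40) := by
          rw [setLIntegral_const, Real.volume_Icc]
          simp
      _ ≤ ∫⁻ t in Set.Icc ((4 : ℝ) ^ m) (4 ^ m + 1),
            ‖translate f (31 * I) (t : ℂ) / E (t : ℂ)‖ₑ ^ 2 := by
          refine setLIntegral_mono' measurableSet_Icc fun t ht => ?_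
          rw [← ofReal_norm, ← ENNReal.ofReal_pow (norm_nonneg _)]
          apply ENNReal.ofReal_le_ofReal
          apply translate_lower
          rw [abs_le]
          constructor <;> linarith [ht.1, ht.2]
      _ ≤ ∫⁻ t : ℝ, ‖translate f (31 * I) (t : ℂ) / E (t : ℂ)‖ₑ ^ 2 := setLIntegral_le_lintegral _ _
  unfold deBrangesNorm
  rw [key]
  exact ENNReal.top_rpow_of_pos (by norm_num)

/-- There is an entire function `E` with `|E(z̄)| < |E(z)|` for `Im z > 0`, of finite exponential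
type, without real zeros, and with `sup_t |E(t+x)/E(t)| < ∞` for every real `x`, such that the
translation group does not act continuously on the de Branges space `H(E)`. -/
theorem result :
    ∃ E : ℂ → ℂ, IsHermiteBiehler E ∧ IsFiniteExponentialType E ∧ (∀ t : ℝ, E (t : ℂ) ≠ 0) ∧
      (∀ x : ℝ, BddAbove (Set.range fun t : ℝ => ‖E ((t : ℂ) + (x : ℂ)) / E (t : ℂ)‖)) ∧
      ¬ TranslationsActContinuously E := by
  refine ⟨E, E_hermiteBiehler, E_type, E_real_ne, E_bounded_translates, fun h => ?_⟩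
  have h1 := (h.1 f f_mem (31 * I)).2.1
  rw [translate_norm_top] at h1
  exact lt_irrefl _ h1

end Pool.Agent.Results.MP_060e4f_an.Disproof
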